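import Pool.Agent.H723R2.Assem
import Pool.Agent.H723R2.Conv
import Pool.Agent.H723R2.Ne
import Pool.Agent.H723R2.ToFun
import Pool.Agent.Helper345.SM.XX_standard

/-!
# MP_9f219e_an: every nonempty set of positive integers is the set of spectral multiplicities of
an ergodic automorphism

The definitions used in the statement (`MS723.fibred`, `MS723.IsUnitary0`, `MS723.IsSpectralData`,
`MS723.HasMultiplicitySet`) are in `Pool/Agent/H723R2/Stmt.lean`.
-/

open MeasureTheory

namespace Pool.Agent.Results.MP_9f219e_an.AllSets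

open MS723

/-- A set `M` of extended natural numbers with `∞ ∉ M` is the set of spectral multiplicities of an
ergodic automorphism of a standard non-atomic probability space if and only if it is a nonempty
set of positive integers. -/
theorem result (M : Set ℕ∞) (htop : ⊤ ∉ M) :
    (∃ (Y : Type) (_ : MeasurableSpace Y) (_ : StandardBorelSpace Y) (μ : Measure Y)
      (_ : IsProbabilityMeasure μ) (T : Y ≃ᵐ Y), (∀ y, μ {y} = 0) ∧ Ergodic T μ ∧
      HasMultiplicitySet μ T M) ↔ M.Nonempty ∧ 0 ∉ M := by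
  constructor
  · rintro ⟨Y, _, _, μ, _, T, hna, -, hM⟩
    exact mult_ne μ hna T M hM
  · rintro ⟨hne, h0⟩
    obtain ⟨k', hk'⟩ := (Set.to_countable M).exists_eq_range hne
    have hfin : ∀ j, ∃ n : ℕ, 0 < n ∧ k' j = (n : ℕ∞) := by
      intro j
      have hj : k' j ∈ M := by rw [hk']; exact ⟨j, rfl⟩
      have h1 : k' j ≠ ⊤ := fun h => htop (h ▸ hj)
      have h2 : k' j ≠ 0 := fun h => h0 (h ▸ hj)
      obtain ⟨n, hn⟩ := ENat.ne_top_iff_exists.1 h1
      refine ⟨n, Nat.pos_of_ne_zero ?_, hn.symm⟩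
      rintro rfl
      exact h2 (by rw [← hn]; rfl)
    choose k hkpos hkeq using hfin
    obtain ⟨P, hPm, hPk, hR⟩ := exists_par (k 0) (hkpos 0) k hkpos
    obtain ⟨c⟩ := ctx_exists (P := P)
    have hprob : IsProbabilityMeasure c.μ := c.hμ.prob
    obtain ⟨σ, hσfin, hσne, hsing, V, hV, hV1, horth, htot⟩ := pieces c hR
    have hL : ∀ F : Lp ℂ 2 c.μ, F ∈ L20 c.μ ↔ inner ℂ (one c) F = 0 := by
      intro F
      unfold L20
      rw [Submodule.mem_orthogonal_singleton_iff_inner_right, one_const]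
    have hcl : IsClosed (L20 c.μ : Set (Lp ℂ 2 c.μ)) := Submodule.isClosed_orthogonal _
    obtain ⟨τ, m, hτfin, hmm, hm1, hset, W, hW⟩ := to_fibred c.UT (L20 c.μ) hcl σ hσfin hσne hsing
      (mult P) mult_pos V hV (fun p h => (hL _).2 (hV1 p h)) horth
      (fun F hF h => htot F ((hL F).1 hF) h)
    refine ⟨_, SM345.instMSXX (Om P) (pP P), SM345.XX_standard (pP P), c.μ, hprob, c.G,
      noAtoms c, T_erg c hR, τ, m, spectral_of_lp c.μ c.G c.hG τ m hτfin hmm hm1 W ?_, ?_⟩
    · intro f f' hff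
      refine hW f f' (Lp.ext (hff.trans ?_))
      exact (SM345.koop_coe c.G c.hG (f : Lp ℂ 2 c.μ)).symm
    · rw [hset]
      have h1 : Set.range (fun i => ((mult P i : ℕ) : ℕ∞)) =
          (fun n : ℕ => (n : ℕ∞)) '' Set.range (mult P) := by
        rw [← Set.range_comp]; rfl
      rw [h1, range_mult, hPm, hPk, hk']
      ext x
      constructor
      · rintro ⟨j, rfl⟩
        exact ⟨k j, Or.inr ⟨j, rfl⟩, (hkeq j).symm⟩
      · rintro ⟨n, hn, rfl⟩
        rcases hn with hn | ⟨j, rfl⟩
        · rw [Set.mem_singleton_iff] at hn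
          exact ⟨0, by rw [hkeq 0, hn]⟩
        · exact ⟨j, hkeq j⟩

end Pool.Agent.Results.MP_9f219e_an.AllSets
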